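import Mathlib
import Pool.Agent.Helper437.Dio.DPRM

set_option autoImplicit false

namespace Pool.Agent.Helper437.Dio.Sys

open Pool.Agent.Helper437.Dio

/-- an integral quadratic equation `e x_i x_j + a x_k + b x_l + c x_m + d = 0` -/
structure Eqn (V : Type) where
  (i j k l m : V)
  (e a b c d : ℤ)

def Eqn.Holds {V : Type} (x : V → ℤ) (q : Eqn V) : Prop :=
  q.e * (x q.i * x q.j) + q.a * x q.k + q.b * x q.l + q.c * x q.m + q.d = 0

def Eqn.map {V W : Type} (f : V → W) (q : Eqn V) : Eqn W :=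
  ⟨f q.i, f q.j, f q.k, f q.l, f q.m, q.e, q.a, q.b, q.c, q.d⟩

theorem Eqn.holds_map {V W : Type} (f : V → W) (q : Eqn V) (x : W → ℤ) :
    (q.map f).Holds x ↔ q.Holds (x ∘ f) := Iff.rfl

/-- straight line program for a polynomial -/
def Prog {γ : Type} (p : Poly γ) : Prop :=
  ∃ (β : Type) (_ : Fintype β) (L : List (Eqn (γ ⊕ β))) (o : γ ⊕ β),
    (∀ (v : γ → ℕ) (x : γ ⊕ β → ℤ), (∀ g, x (Sum.inl g) = v g) → (∀ q ∈ L, q.Holds x) →
      x o = p v) ∧
    (∀ v : γ → ℕ, ∃ y : β → ℤ, ∀ q ∈ L, q.Holds (Sum.elim (fun g => (v g : ℤ)) y))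

def in1 {γ β₁ β₂ : Type} : γ ⊕ β₁ → γ ⊕ (β₁ ⊕ β₂ ⊕ Unit) := Sum.map id Sum.inl
def in2 {γ β₁ β₂ : Type} : γ ⊕ β₂ → γ ⊕ (β₁ ⊕ β₂ ⊕ Unit) := Sum.map id (Sum.inr ∘ Sum.inl)

theorem prog_all {γ : Type} (p : Poly γ) : Prog p := by
  refine Poly.induction (C := Prog) ?_ ?_ ?_ ?_ p
  · intro i
    refine ⟨Empty, inferInstance, [], Sum.inl i, ?_, ?_⟩
    · intro v x h _
      rw [h]; rfl
    · intro v
      exact ⟨Empty.elim, by simp⟩
  · intro n
    refine ⟨Unit, inferInstance, [⟨Sum.inr (), Sum.inr (), Sum.inr (), Sum.inr (), Sum.inr (),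
      0, 1, 0, 0, -n⟩], Sum.inr (), ?_, ?_⟩
    · intro v x h hq
      have := hq _ (List.mem_singleton.2 rfl)
      simp only [Eqn.Holds] at this
      rw [Poly.const_apply]
      linarith
    · intro v
      refine ⟨fun _ => n, ?_⟩
      intro q hq
      rw [List.mem_singleton] at hq
      subst hq
      simp [Eqn.Holds]
  · rintro p1 p2 ⟨β₁, _, L₁, o₁, s₁, c₁⟩ ⟨β₂, _, L₂, o₂, s₂, c₂⟩
    refine ⟨β₁ ⊕ β₂ ⊕ Unit, inferInstance,
      ⟨in1 o₁, in1 o₁, in1 o₁, in2 o₂, Sum.inr (Sum.inr (Sum.inr ())), 0, 1, -1, -1, 0⟩ ::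
        (L₁.map (Eqn.map in1) ++ L₂.map (Eqn.map in2)), Sum.inr (Sum.inr (Sum.inr ())), ?_, ?_⟩
    · intro v x h hq
      have h0 := hq _ (List.mem_cons_self)
      have h1 := s₁ v (x ∘ in1) (fun g => h g) (fun q hq' => by
        rw [← Eqn.holds_map]
        exact hq _ (List.mem_cons_of_mem _ (List.mem_append_left _ (List.mem_map_of_mem hq'))))
      have h2 := s₂ v (x ∘ in2) (fun g => h g) (fun q hq' => by
        rw [← Eqn.holds_map]
        exact hq _ (List.mem_cons_of_mem _ (List.mem_append_right _ (List.mem_map_of_mem hq'))))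
      simp only [Function.comp] at h1 h2
      simp only [Eqn.Holds, h1, h2] at h0
      rw [Poly.sub_apply]
      linarith
    · intro v
      obtain ⟨y₁, hy₁⟩ := c₁ v
      obtain ⟨y₂, hy₂⟩ := c₂ v
      have e1 : ∀ z, (Sum.elim (fun g => (v g : ℤ)) (Sum.elim y₁ (Sum.elim y₂ z)) ∘
          (in1 : γ ⊕ β₁ → γ ⊕ (β₁ ⊕ β₂ ⊕ Unit))) = Sum.elim (fun g => (v g : ℤ)) y₁ := by
        intro z
        funext g
        rcases g with g | g <;> rfl
      have e2 : ∀ z, (Sum.elim (fun g => (v g : ℤ)) (Sum.elim y₁ (Sum.elim y₂ z)) ∘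
          (in2 : γ ⊕ β₂ → γ ⊕ (β₁ ⊕ β₂ ⊕ Unit))) = Sum.elim (fun g => (v g : ℤ)) y₂ := by
        intro z
        funext g
        rcases g with g | g <;> rfl
      refine ⟨Sum.elim y₁ (Sum.elim y₂ (fun _ => Sum.elim (fun g => (v g : ℤ)) y₁ o₁ -
        Sum.elim (fun g => (v g : ℤ)) y₂ o₂)), ?_⟩
      intro q hq
      rw [List.mem_cons, List.mem_append, List.mem_map, List.mem_map] at hq
      rcases hq with rfl | ⟨q, hq, rfl⟩ | ⟨q, hq, rfl⟩
      · simp only [Eqn.Holds]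
        have := congrFun (e1 (fun _ => Sum.elim (fun g => (v g : ℤ)) y₁ o₁ -
          Sum.elim (fun g => (v g : ℤ)) y₂ o₂)) o₁
        have := congrFun (e2 (fun _ => Sum.elim (fun g => (v g : ℤ)) y₁ o₁ -
          Sum.elim (fun g => (v g : ℤ)) y₂ o₂)) o₂
        simp only [Function.comp] at *
        simp only [*, Sum.elim_inr]
        ring
      · rw [Eqn.holds_map, e1]
        exact hy₁ q hq
      · rw [Eqn.holds_map, e2]
        exact hy₂ q hq
  · rintro p1 p2 ⟨β₁, _, L₁, o₁, s₁, c₁⟩ ⟨β₂, _, L₂, o₂, s₂, c₂⟩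
    refine ⟨β₁ ⊕ β₂ ⊕ Unit, inferInstance,
      ⟨in1 o₁, in2 o₂, in2 o₂, in2 o₂, Sum.inr (Sum.inr (Sum.inr ())), 1, 0, 0, -1, 0⟩ ::
        (L₁.map (Eqn.map in1) ++ L₂.map (Eqn.map in2)), Sum.inr (Sum.inr (Sum.inr ())), ?_, ?_⟩
    · intro v x h hq
      have h0 := hq _ (List.mem_cons_self)
      have h1 := s₁ v (x ∘ in1) (fun g => h g) (fun q hq' => by
        rw [← Eqn.holds_map]
        exact hq _ (List.mem_cons_of_mem _ (List.mem_append_left _ (List.mem_map_of_mem hq'))))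
      have h2 := s₂ v (x ∘ in2) (fun g => h g) (fun q hq' => by
        rw [← Eqn.holds_map]
        exact hq _ (List.mem_cons_of_mem _ (List.mem_append_right _ (List.mem_map_of_mem hq'))))
      simp only [Function.comp] at h1 h2
      simp only [Eqn.Holds, h1, h2] at h0
      rw [Poly.mul_apply]
      linarith
    · intro v
      obtain ⟨y₁, hy₁⟩ := c₁ v
      obtain ⟨y₂, hy₂⟩ := c₂ v
      have e1 : ∀ z, (Sum.elim (fun g => (v g : ℤ)) (Sum.elim y₁ (Sum.elim y₂ z)) ∘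
          (in1 : γ ⊕ β₁ → γ ⊕ (β₁ ⊕ β₂ ⊕ Unit))) = Sum.elim (fun g => (v g : ℤ)) y₁ := by
        intro z
        funext g
        rcases g with g | g <;> rfl
      have e2 : ∀ z, (Sum.elim (fun g => (v g : ℤ)) (Sum.elim y₁ (Sum.elim y₂ z)) ∘
          (in2 : γ ⊕ β₂ → γ ⊕ (β₁ ⊕ β₂ ⊕ Unit))) = Sum.elim (fun g => (v g : ℤ)) y₂ := by
        intro z
        funext g
        rcases g with g | g <;> rfl
      refine ⟨Sum.elim y₁ (Sum.elim y₂ (fun _ => Sum.elim (fun g => (v g : ℤ)) y₁ o₁ *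
        Sum.elim (fun g => (v g : ℤ)) y₂ o₂)), ?_⟩
      intro q hq
      rw [List.mem_cons, List.mem_append, List.mem_map, List.mem_map] at hq
      rcases hq with rfl | ⟨q, hq, rfl⟩ | ⟨q, hq, rfl⟩
      · simp only [Eqn.Holds]
        have := congrFun (e1 (fun _ => Sum.elim (fun g => (v g : ℤ)) y₁ o₁ *
          Sum.elim (fun g => (v g : ℤ)) y₂ o₂)) o₁
        have := congrFun (e2 (fun _ => Sum.elim (fun g => (v g : ℤ)) y₁ o₁ *
          Sum.elim (fun g => (v g : ℤ)) y₂ o₂)) o₂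
        simp only [Function.comp] at *
        simp only [*, Sum.elim_inr]
        ring
      · rw [Eqn.holds_map, e1]
        exact hy₁ q hq
      · rw [Eqn.holds_map, e2]
        exact hy₂ q hq

/-- the four equations saying that variable `g` is a sum of four squares -/
def sq4 {γ V : Type} (z : γ → V) (a : γ × Fin 4 → V) (u : γ × Fin 3 → V) (g : γ) : List (Eqn V) :=
  [⟨a (g, 0), a (g, 0), u (g, 0), u (g, 0), u (g, 0), 1, -1, 0, 0, 0⟩,
   ⟨a (g, 1), a (g, 1), u (g, 0), u (g, 1), u (g, 1), 1, 1, -1, 0, 0⟩,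
   ⟨a (g, 2), a (g, 2), u (g, 1), u (g, 2), u (g, 2), 1, 1, -1, 0, 0⟩,
   ⟨a (g, 3), a (g, 3), u (g, 2), z g, z g, 1, 1, -1, 0, 0⟩]

theorem exists_system (S : ℕ → Prop) (hS : Dioph {v : Unit → ℕ | S (v ())}) :
    ∃ (V : Type) (_ : Fintype V) (f : V) (L : List (Eqn V)), ∀ z : ℤ,
      (∃ x : V → ℤ, x f = z ∧ ∀ q ∈ L, q.Holds x) ↔ ∃ n : ℕ, S n ∧ z = 1 - 4 * n := by
  classical
  obtain ⟨δ, _, p, hp⟩ := finite_dummies hS
  obtain ⟨β, _, L, o, sound, compl⟩ := prog_all p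
  let γ := Unit ⊕ δ
  let V := (γ ⊕ β) ⊕ (γ × Fin 4) ⊕ (γ × Fin 3) ⊕ Unit
  let z : γ → V := fun g => Sum.inl (Sum.inl g)
  let a : γ × Fin 4 → V := fun g => Sum.inr (Sum.inl g)
  let u : γ × Fin 3 → V := fun g => Sum.inr (Sum.inr (Sum.inl g))
  let f : V := Sum.inr (Sum.inr (Sum.inr ()))
  let L' : List (Eqn V) :=
    ⟨f, f, f, z (Sum.inl ()), f, 0, 1, 4, 0, -1⟩ ::
    ⟨f, f, Sum.inl o, f, f, 0, 1, 0, 0, 0⟩ ::
    (L.map (Eqn.map Sum.inl) ++ (Finset.univ : Finset γ).toList.flatMap (sq4 z a u))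
  refine ⟨V, inferInstance, f, L', ?_⟩
  intro w
  constructor
  · rintro ⟨x, hx, hL⟩
    have h1 := hL _ List.mem_cons_self
    have h2 := hL _ (List.mem_cons_of_mem _ List.mem_cons_self)
    have h3 : ∀ q ∈ L, q.Holds (x ∘ Sum.inl) := by
      intro q hq
      rw [← Eqn.holds_map]
      exact hL _ (List.mem_cons_of_mem _ (List.mem_cons_of_mem _
        (List.mem_append_left _ (List.mem_map_of_mem hq))))
    have h4 : ∀ g : γ, ∀ q ∈ sq4 z a u g, q.Holds x := by
      intro g q hq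
      refine hL _ (List.mem_cons_of_mem _ (List.mem_cons_of_mem _
        (List.mem_append_right _ ?_)))
      rw [List.mem_flatMap]
      exact ⟨g, by simp, hq⟩
    have h5 : ∀ g : γ, 0 ≤ x (z g) := by
      intro g
      have q0 := h4 g _ (by simp only [sq4]; exact List.mem_cons_self)
      have q1 := h4 g _ (by
        simp only [sq4]; exact List.mem_cons_of_mem _ List.mem_cons_self)
      have q2 := h4 g _ (by
        simp only [sq4]
        exact List.mem_cons_of_mem _ (List.mem_cons_of_mem _ List.mem_cons_self))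
      have q3 := h4 g _ (by
        simp only [sq4]
        exact List.mem_cons_of_mem _ (List.mem_cons_of_mem _
          (List.mem_cons_of_mem _ List.mem_cons_self)))
      simp only [Eqn.Holds] at q0 q1 q2 q3
      nlinarith [mul_self_nonneg (x (a (g, 0))), mul_self_nonneg (x (a (g, 1))),
        mul_self_nonneg (x (a (g, 2))), mul_self_nonneg (x (a (g, 3)))]
    let v : γ → ℕ := fun g => (x (z g)).toNat
    have hv : ∀ g : γ, (x ∘ Sum.inl) (Sum.inl g) = (v g : ℤ) := by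
      intro g
      simp only [v, Function.comp]
      exact (Int.toNat_of_nonneg (h5 g)).symm
    have h6 := sound v (x ∘ Sum.inl) hv h3
    simp only [Eqn.Holds] at h1 h2
    have h7 : p v = 0 := by
      rw [← h6]
      simp only [Function.comp]
      linarith
    refine ⟨v (Sum.inl ()), ?_, ?_⟩
    · refine (hp (fun _ => v (Sum.inl ()))).2 ⟨fun d => v (Sum.inr d), ?_⟩
      rw [← h7]
      congr 1
      ext g
      rcases g with g | g <;> rfl
    · have := hv (Sum.inl ())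
      simp only [Function.comp] at this
      rw [← this, ← hx]
      simp only [z] at h1
      linarith
  · rintro ⟨n, hn, rfl⟩
    obtain ⟨t, ht⟩ := (hp (fun _ => n)).1 hn
    let v : γ → ℕ := Sum.elim (fun _ => n) t
    obtain ⟨y, hy⟩ := compl v
    have h6 := sound v (Sum.elim (fun g => (v g : ℤ)) y) (fun g => rfl) hy
    have hsq : ∀ g : γ, ∃ s : Fin 4 → ℤ, s 0 * s 0 + s 1 * s 1 + s 2 * s 2 + s 3 * s 3 = v g := by
      intro g
      obtain ⟨c0, c1, c2, c3, hc⟩ := Nat.sum_four_squares (v g)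
      refine ⟨![c0, c1, c2, c3], ?_⟩
      have : ((c0 ^ 2 + c1 ^ 2 + c2 ^ 2 + c3 ^ 2 : ℕ) : ℤ) = v g := by exact_mod_cast hc
      push_cast at this
      simp only [Matrix.cons_val_zero, Matrix.cons_val_one, Matrix.cons_val]
      linarith
    choose s hs using hsq
    let x : V → ℤ := Sum.elim (Sum.elim (fun g => (v g : ℤ)) y) (Sum.elim (fun g => s g.1 g.2)
      (Sum.elim (fun g => ![s g.1 0 * s g.1 0, s g.1 0 * s g.1 0 + s g.1 1 * s g.1 1,
        s g.1 0 * s g.1 0 + s g.1 1 * s g.1 1 + s g.1 2 * s g.1 2] g.2) (fun _ => 1 - 4 * n)))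
    refine ⟨x, rfl, ?_⟩
    intro q hq
    simp only [L', List.mem_cons, List.mem_append, List.mem_map, List.mem_flatMap] at hq
    rcases hq with rfl | rfl | ⟨q, hq, rfl⟩ | ⟨g, -, hq⟩
    · simp only [Eqn.Holds, x, z, f, v, Sum.elim_inl, Sum.elim_inr]
      ring
    · have h8 : x (Sum.inl o) = 0 := by
        change Sum.elim (fun g => (v g : ℤ)) y o = 0
        rw [h6]
        exact ht
      simp only [Eqn.Holds, h8]
      ring
    · rw [Eqn.holds_map]
      exact hy q hq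
    · have hg := hs g
      simp only [sq4, List.mem_cons, List.not_mem_nil, or_false] at hq
      have ha : ∀ i, x (a (g, i)) = s g i := fun i => rfl
      have hu0 : x (u (g, 0)) = s g 0 * s g 0 := rfl
      have hu1 : x (u (g, 1)) = s g 0 * s g 0 + s g 1 * s g 1 := rfl
      have hu2 : x (u (g, 2)) = s g 0 * s g 0 + s g 1 * s g 1 + s g 2 * s g 2 := rfl
      have hz : x (z g) = v g := rfl
      rcases hq with rfl | rfl | rfl | rfl
      · simp only [Eqn.Holds, ha, hu0]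
        ring
      · simp only [Eqn.Holds, ha, hu0, hu1]
        ring
      · simp only [Eqn.Holds, ha, hu1, hu2]
        ring
      · simp only [Eqn.Holds, ha, hu2, hz]
        linarith

end Pool.Agent.Helper437.Dio.Sys
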